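import Pool.Agent.NP.Main

/-!
# MP_b0d93d_co: the path-star projections are nested for all large `k`
-/

namespace Pool.Agent.Results.MP_b0d93d_co.LargeK

open Pool.Agent.NP

/-- There is `k0` such that for every `k ≥ k0` the set of limiting (path density, star density)
pairs of the `k`-profiles of large trees is contained in the corresponding set for `k + 1`. -/
theorem result : ∃ k0 : ℕ, ∀ k, k0 ≤ k → Proj k ⊆ Proj (k + 1) := main

end Pool.Agent.Results.MP_b0d93d_co.LargeK
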